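import Mathlib

namespace Pool.Agent.H.MP_f0be4b_lc

open Set Cardinal Function MeasureTheory

theorem sel {X J : Type} (F : J → Set X) (R : J → X → J → X → Prop) (h : ∀ j, #J ≤ #(F j))
    (h0 : ∀ j, ℵ₀ < #(F j)) (hs : ∀ j x k y, R j x k y → R k y j x)
    (hR : ∀ j k y, {x ∈ F j | R j x k y}.Countable) :
    ∃ g : J → X, (∀ j, g j ∈ F j) ∧ ∀ j k, j ≠ k → ¬R j (g j) k (g k) := by
  obtain ⟨_, _, hr⟩ := exists_ord_eq_type_lt J
  have : ∀ (j : J) (g : (k : J) → k < j → X), ∃ x ∈ F j, ∀ k h, ¬R j x k (g k h) := fun j g => by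
    by_contra! k
    have : F j ⊆ ⋃ k : Iio j, {x ∈ F j | R j x k (g k.1 k.2)} := fun x hx =>
      (k x hx).elim fun a ⟨b, c⟩ => mem_iUnion.2 ⟨⟨a, b⟩, hx, c⟩
    refine ((mk_le_mk_of_subset this).trans ((mk_iUnion_le _).trans (mul_le_mul_right
      (ciSup_le' fun k => le_aleph0_iff_set_countable.2 (hR _ _ _)) _))).not_gt ?_
    exact mul_lt_of_lt (h0 j).le ((mk_Iio_lt j hr).trans_le (h j)) (h0 j)
  choose G h1 h2 using this
  have e : ∀ j, wellFounded_lt.fix G j = G j fun k _ => wellFounded_lt.fix G k :=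
    wellFounded_lt.fix_eq G
  have k : ∀ j k, k < j → ¬R j (wellFounded_lt.fix G j) k (wellFounded_lt.fix G k) :=
    fun j k h => e j ▸ h2 j (fun k _ => wellFounded_lt.fix G k) k h
  exact ⟨wellFounded_lt.fix G, fun j => e j ▸ h1 j _, fun j l h =>
    h.lt_or_gt.elim (fun h => mt (hs _ _ _ _) (k _ _ h)) (k _ _)⟩

def Ok (F : ℝ → ℝ) : Prop :=
  Monotone F ∧ InjOn F (Ioo 0 1) ∧ ∃ c d, d - c < 1 ∧ MapsTo F (Ioo 0 1) (Icc c d)

theorem card_ok : #{F // Ok F} ≤ 𝔠 := by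
  have a : #{s : Set ℝ | MeasurableSet s} ≤ 𝔠 := by
    rw [BorelSpace.measurable_eq (α := ℝ), Real.borel_eq_generateFrom_Iio_rat]
    exact MeasurableSpace.cardinal_measurableSet_le_continuum ((le_aleph0_iff_set_countable.2
      (countable_iUnion fun _ => countable_singleton _)).trans aleph0_le_continuum)
  refine (mk_le_of_injective (f := fun (F : {F // Ok F}) (q : ℚ) => (⟨F.1 ⁻¹' Iio q,
    F.2.1.measurable measurableSet_Iio⟩ : {s : Set ℝ | MeasurableSet s})) fun F G h => ?_).trans ?_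
  · ext x
    refine eq_of_forall_lt_rat_iff_lt fun q => ?_
    simpa using Set.ext_iff.1 (congrArg Subtype.val (congrFun h q)) x
  · rw [← power_def, mk_denumerable ℚ, ← continuum_power_aleph0]
    exact power_le_power_right a

theorem cnt {F : ℝ → ℝ} (h : Ok F) (y : ℝ) : {x ∈ Ioo (0 : ℝ) 1 | ∃ q : ℚ, F x = y + q}.Countable :=
  countable_of_injective_of_countable_image (h.2.1.mono fun _ => And.left)
    ((countable_range fun q : ℚ => y + q).mono (by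
      rintro _ ⟨_, ⟨_, q, e⟩, rfl⟩
      exact ⟨q, e.symm⟩))

def D (F : ℝ → ℝ) : Set ℝ := {x ∈ Ioo 0 1 | ∀ q : ℚ, F x ≠ x + q ∧ F x ≠ q}

theorem card_D {F : ℝ → ℝ} (h : Ok F) : #(D F) = 𝔠 := by
  have m := h.1.measurable
  have a : MeasurableSet (D F) := by
    unfold D
    measurability
  have nc : ¬Countable (D F) := fun b => by
    obtain ⟨c, d, h1, h2⟩ := h.2.2
    let C : ℚ → Set ℝ := fun q => {x | x - q ∈ Ioo (0 : ℝ) 1 ∧ F (x - q) = x}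
    have c0 : ∀ q, MeasurableSet (C q) := fun q => by
      unfold C
      measurability
    have c1 : volume (Ioo (0 : ℝ) 1) ≤ volume (⋃ q : ℚ, (· + (q : ℝ)) ⁻¹' C q) := by
      refine le_trans (measure_mono fun x hx => ?_) ((measure_union_le _ _).trans_eq
        ((congrArg _ (((countable_coe_iff.1 b).union (cnt h 0)).measure_zero volume)).trans
          (add_zero _)))
      by_contra! k
      simp only [mem_union, not_or, D, C, mem_iUnion, mem_ofPred_eq, mem_preimage, hx, true_and,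
        add_sub_cancel_right, zero_add, not_exists] at k
      exact k.2.1 fun q => ⟨k.1 q, k.2.2 q⟩
    have c2 : volume (⋃ q, C q) ≤ volume (Icc c d) :=
      measure_mono (iUnion_subset fun q x hx => hx.2 ▸ h2 hx.1)
    rw [measure_iUnion (fun p q e => disjoint_left.2 fun x a b => e ?_) c0] at c2
    · replace c1 := c1.trans (measure_iUnion_le _)
      simp only [measure_preimage_add_right] at c1
      have := c1.trans c2
      rw [Real.volume_Ioo, Real.volume_Icc, ENNReal.ofReal_le_ofReal_iff'] at this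
      rcases this with h | h <;> linarith
    · exact_mod_cast sub_right_injective (h.2.1 a.1 b.1 (a.2.trans b.2.symm))
  have := a.standardBorel
  exact (PolishSpace.measurableEquivOfNotCountable nc not_countable).toEquiv.cardinal_eq.trans
    mk_real

theorem exE : ∃ E : Set ℝ, (∀ q : ℚ, (q : ℝ) ∈ E) ∧ (∀ x ∈ E, ∀ q : ℚ, x + q ∈ E) ∧
    ∀ F, Ok F → ∃ x ∈ E ∩ Ioo 0 1, F x ∉ E := by
  obtain ⟨g, h1, h2⟩ := sel (fun F : {F // Ok F} => D F.1)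
    (fun F x G y => (∃ q : ℚ, F.1 x = y + q) ∨ ∃ q : ℚ, G.1 y = x + q)
    (fun F => card_ok.trans (card_D F.2).ge) (fun F => aleph0_lt_continuum.trans_eq (card_D F.2).symm)
    (fun _ _ _ _ => Or.symm) fun F G y => ((cnt F.2 y).union
      (countable_range fun q : ℚ => G.1 y - q)).mono fun x ⟨a, b⟩ =>
        b.imp (fun b => ⟨a.1, b⟩) fun ⟨q, e⟩ => ⟨q, sub_eq_iff_eq_add.2 e⟩
  refine ⟨{x | ∃ q : ℚ, x = q ∨ ∃ F, x = g F + q}, fun q => ⟨q, Or.inl rfl⟩, ?_, fun F hF =>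
    ⟨g ⟨F, hF⟩, ⟨⟨0, Or.inr ⟨⟨F, hF⟩, by simp⟩⟩, (h1 _).1⟩, ?_⟩⟩
  · rintro x ⟨p, rfl | ⟨F, rfl⟩⟩ q
    exacts [⟨p + q, Or.inl (by simp)⟩, ⟨p + q, Or.inr ⟨F, by simp [add_assoc]⟩⟩]
  · rintro ⟨q, e | ⟨G, e⟩⟩
    · exact ((h1 ⟨F, hF⟩).2 q).2 e
    · rcases eq_or_ne ⟨F, hF⟩ G with rfl | k
      exacts [((h1 ⟨F, hF⟩).2 q).1 e, h2 _ _ k (Or.inl ⟨q, e⟩)]

theorem exE' : ∃ E : Set ℝ, (∀ q : ℚ, (q : ℝ) ∈ E) ∧ (∀ x ∈ E, ∀ q : ℚ, x + q ∈ E) ∧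
    ∀ (f : ℝ → ℝ) (c d : ℝ), d - c < 1 → StrictMonoOn f (E ∩ Ioo 0 1) →
      ¬MapsTo f (E ∩ Ioo 0 1) (E ∩ Icc c d) := by
  obtain ⟨E, h1, h2, h3⟩ := exE
  refine ⟨E, h1, h2, fun f c d a b m => ?_⟩
  obtain ⟨F, a1, a2⟩ := b.monotoneOn.exists_monotone_extension
    ⟨c, by rintro _ ⟨x, hx, rfl⟩; exact (m hx).2.1⟩ ⟨d, by rintro _ ⟨x, hx, rfl⟩; exact (m hx).2.2⟩
  have k : ∀ {x y : ℝ}, 0 ≤ x → x < y → y ≤ 1 → ∃ z ∈ E ∩ Ioo 0 1, x < z ∧ z < y :=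
    fun a b c => (exists_rat_btwn b).elim fun q ⟨d, e⟩ =>
      ⟨q, ⟨h1 q, a.trans_lt d, e.trans_le c⟩, d, e⟩
  refine (h3 F ⟨a1, StrictMonoOn.injOn fun x hx y hy h => ?_, c, d, a, fun x hx => ?_⟩).elim
    fun x ⟨hx, e⟩ => e (a2 hx ▸ (m hx).1)
  · obtain ⟨z, z1, z2, z3⟩ := k hx.1.le h hy.2.le
    obtain ⟨w, w1, w2, w3⟩ := k z1.2.1.le z3 hy.2.le
    exact (a1 z2.le).trans_lt ((a2 z1 ▸ a2 w1 ▸ b z1 w1 w2).trans_le (a1 w3.le))
  · obtain ⟨z, z1, -, z3⟩ := k le_rfl hx.1 hx.2.le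
    obtain ⟨w, w1, w2, -⟩ := k hx.1.le hx.2 le_rfl
    exact ⟨(a2 z1 ▸ (m z1).2.1).trans (a1 z3.le), (a1 w2.le).trans (a2 w1 ▸ (m w1).2.2)⟩

theorem emb {X : Type} [LinearOrder X] {s : Set ℝ} (h : s.Nonempty) :
    Nonempty (s ↪o X) ↔ ∃ f : ℝ → X, StrictMonoOn f s := by
  classical
  refine ⟨fun ⟨e⟩ => ⟨fun x => if h' : x ∈ s then e ⟨x, h'⟩ else e ⟨_, h.some_mem⟩,
    fun x hx y hy l => ?_⟩, fun ⟨f, hf⟩ => ⟨.ofStrictMono _ hf.domRestrict⟩⟩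
  simpa [hx, hy] using l

theorem main : ∃ A B C : Set ℝ, IsEmpty (A ↪o B) ∧ IsEmpty (B ↪o A) ∧
    Nonempty (A ↪o C) ∧ Nonempty (B ↪o C) ∧ ∀ (X : Type) [LinearOrder X],
      Nonempty (A ↪o X) → Nonempty (B ↪o X) → Nonempty (C ↪o X) := by
  obtain ⟨E, h1, h2, h3⟩ := exE'
  have e0 : (0 : ℝ) ∈ E ∩ Ico 0 1 := ⟨by simpa using h1 0, by simp⟩
  have e1 : (1 : ℝ) ∈ E ∩ Ioc 0 1 := ⟨by simpa using h1 1, by simp⟩
  refine ⟨E ∩ Ico 0 1, E ∩ Ioc 0 1, E ∩ Icc 0 1, not_nonempty_iff.1 fun h => ?_,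
    not_nonempty_iff.1 fun h => ?_,
    ⟨.ofStrictMono (inclusion (inter_subset_inter_right _ Ico_subset_Icc_self)) fun _ _ => id⟩,
    ⟨.ofStrictMono (inclusion (inter_subset_inter_right _ Ioc_subset_Icc_self)) fun _ _ => id⟩,
    fun X _ ha hb => ?_⟩
  · obtain ⟨f, hf⟩ := (emb ⟨_, e0⟩).1 h
    exact h3 (fun x => f x) (f 0) 1 (by linarith [(f 0).2.2.1])
      (hf.mono (inter_subset_inter_right _ Ioo_subset_Ico_self)) fun x hx =>
        ⟨(f x).2.1, (hf e0 ⟨hx.1, hx.2.1.le, hx.2.2⟩ hx.2.1).le, (f x).2.2.2⟩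
  · obtain ⟨f, hf⟩ := (emb ⟨_, e1⟩).1 h
    exact h3 (fun x => f x) 0 (f 1) (by linarith [(f 1).2.2.2])
      (hf.mono (inter_subset_inter_right _ Ioo_subset_Ioc_self)) fun x hx =>
        ⟨(f x).2.1, (f x).2.2.1, (hf ⟨hx.1, hx.2.1, hx.2.2.le⟩ e1 hx.2.2).le⟩
  obtain ⟨a, ha⟩ := (emb ⟨_, e0⟩).1 ha
  obtain ⟨b, hb⟩ := (emb ⟨_, e1⟩).1 hb
  refine (emb (s := E ∩ Icc 0 1) ⟨0, e0.1, by simp⟩).2 ?_
  by_cases k : ∀ y ∈ E ∩ Ioc 0 1, a 0 < b y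
  · refine ⟨fun x => if x ≤ 0 then a 0 else b x, fun x hx y hy l => ?_⟩
    have y0 := hx.2.1.trans_lt l
    simp only [if_neg y0.not_ge]
    split_ifs with h
    exacts [k y ⟨hy.1, y0, hy.2.2⟩, hb ⟨hx.1, not_le.1 h, hx.2.2⟩ ⟨hy.1, y0, hy.2.2⟩ l]
  push Not at k
  obtain ⟨z, z1, z2⟩ := k
  obtain ⟨g, g1, g2⟩ := exists_rat_btwn (half_pos z1.2.1)
  have u : ∀ x ∈ E ∩ Icc 0 1, x ≤ g → x + g ∈ E ∩ Ioc 0 1 := fun x hx l =>
    ⟨h2 x hx.1 g, by linarith [hx.2.1], by linarith [z1.2.2]⟩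
  have v : ∀ x ∈ E ∩ Icc 0 1, g < x → x - g ∈ E ∩ Ico 0 1 := fun x hx l =>
    ⟨by simpa [sub_eq_add_neg] using h2 x hx.1 (-g), by linarith, by linarith [hx.2.2]⟩
  refine ⟨fun x => if x ≤ g then b (x + g) else a (x - g), fun x hx y hy l => ?_⟩
  simp only
  split_ifs with h h' h'
  · exact hb (u x hx h) (u y hy h') (by linarith)
  · exact (hb (u x hx h) z1 (by linarith)).trans_le
      (z2.trans (ha e0 (v y hy (not_le.1 h')) (by linarith)).le)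
  · exact absurd (l.le.trans h') h
  · exact ha (v x hx (not_le.1 h)) (v y hy (not_le.1 h')) (by linarith)

end Pool.Agent.H.MP_f0be4b_lc
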